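import Mathlib
import Pool.Agent.Q90.CC4

/-!
# MP_24cacf_an: `e_n` has exact order `n⁻²`

The plane is identified with `ℂ` (Euclidean metric); the Hausdorff distance `r` is taken with
respect to the max-norm, i.e. in the metric space `ℝ × ℝ`.
-/

open MeasureTheory Polynomial
open scoped Pointwise

namespace Pool.Agent.Results.MP_24cacf_an.OrderOfMagnitude

/-- A closed convex curve: the boundary of a compact convex set with nonempty interior. -/
def IsClosedConvexCurve (F : Set ℂ) : Prop :=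
  ∃ K : Set ℂ, IsCompact K ∧ Convex ℝ K ∧ (interior K).Nonempty ∧ F = frontier K

/-- The class `Γ₁⁰` of all closed convex curves of length one (the length is the
one-dimensional Hausdorff measure for the Euclidean metric). -/
def Gamma10 : Set (Set ℂ) := {F | IsClosedConvexCurve F ∧ μH[1] F = 1}

/-- The polynomial curve `{(P(t), Q(t)) : t ∈ [0,1]}`. -/
def polyCurve (P Q : ℝ[X]) : Set ℂ := (fun t : ℝ => (⟨P.eval t, Q.eval t⟩ : ℂ)) '' Set.Icc 0 1

/-- The Hausdorff distance for the max-norm. -/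
noncomputable def r (F G : Set ℂ) : ℝ :=
  Metric.hausdorffDist ((fun z : ℂ => (z.re, z.im)) '' F) ((fun z : ℂ => (z.re, z.im)) '' G)

/-- Best approximation of `F` by polynomial curves of degree at most `n`. -/
noncomputable def E (n : ℕ) (F : Set ℂ) : ℝ :=
  sInf {ρ | ∃ P Q : ℝ[X], P.natDegree ≤ n ∧ Q.natDegree ≤ n ∧ ρ = r F (polyCurve P Q)}

/-- `e_n = sup { E(H_n²; F) : F ∈ Γ₁⁰ }`. -/
noncomputable def e (n : ℕ) : ℝ := sSup (E n '' Gamma10)

lemma dist_le (z w : ℂ) : dist (z.re, z.im) (w.re, w.im) ≤ ‖z - w‖ := by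
  rw [Prod.dist_eq, Real.dist_eq, Real.dist_eq]
  exact max_le (by simpa using Complex.abs_re_le_norm (z - w))
    (by simpa using Complex.abs_im_le_norm (z - w))

lemma E_upper {F : Set ℂ} (hF : F ∈ Gamma10) (n : ℕ) :
    E n F ≤ 12288 * Real.pi ^ 4 / (n + 2) ^ 2 := by
  obtain ⟨⟨K, hK, hc, hint, rfl⟩, hlen⟩ := hF
  have hdiam : ∀ z ∈ K, ∀ w ∈ K, ‖z - w‖ ≤ 1 := by
    intro z hz w hw
    have := Q90.CC.diam_le_length hK hc hz hw
    rw [hlen] at this
    exact (ENNReal.ofReal_le_one).1 this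
  obtain ⟨P, Q, hP, hQ, h1, h2⟩ := Q90.CC.upper hK hc hint hdiam n
  have hr : r (frontier K) (polyCurve P Q) ≤ 12288 * Real.pi ^ 4 / (n + 2) ^ 2 := by
    refine Metric.hausdorffDist_le_of_mem_dist (by positivity) ?_ ?_
    · rintro _ ⟨q, hq, rfl⟩
      obtain ⟨t, ht, htq⟩ := h2 q hq
      refine ⟨(P.eval t, Q.eval t), ⟨_, ⟨t, ht, rfl⟩, rfl⟩, ?_⟩
      rw [dist_comm]
      exact (dist_le _ _).trans htq
    · rintro _ ⟨_, ⟨t, ht, rfl⟩, rfl⟩
      obtain ⟨q, hq, htq⟩ := h1 t ht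
      exact ⟨(q.re, q.im), ⟨q, hq, rfl⟩, (dist_le _ _).trans htq⟩
  have hbb : BddBelow {ρ | ∃ P Q : ℝ[X], P.natDegree ≤ n ∧ Q.natDegree ≤ n ∧
      ρ = r (frontier K) (polyCurve P Q)} := by
    refine ⟨0, ?_⟩
    rintro _ ⟨P, Q, _, _, rfl⟩
    exact Metric.hausdorffDist_nonneg
  exact (csInf_le hbb ⟨P, Q, hP, hQ, rfl⟩).trans hr

lemma E_lower (n : ℕ) : ∃ F ∈ Gamma10, 1 / (1600 * Real.pi * (2 * n + 3) ^ 2) ≤ E n F := by
  have hpi := Real.pi_pos
  obtain ⟨c, hc, hlen⟩ := Q90.CC.model_length_one (2 * n + 3)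
  have hc0 : 0 < c := lt_of_lt_of_le (by positivity) hc
  refine ⟨frontier (c • Q90.CC.Km (2 * n + 3)), ⟨⟨_, (Q90.CC.Km_compact _).smul c,
    (Q90.CC.Km_convex _).smul c, ?_, rfl⟩, hlen⟩, ?_⟩
  · rw [interior_smul₀ hc0.ne']
    exact (Q90.CC.Km_int _).smul_set
  · set ε : ℝ := 1 / (100 * (2 * n + 3) ^ 2) with hε
    have hε0 : 0 < ε := by positivity
    have hbig : 1 / (1600 * Real.pi * (2 * n + 3) ^ 2) ≤ c * ε := by
      have h1 : 1 / (1600 * Real.pi * (2 * (n : ℝ) + 3) ^ 2) = 1 / (16 * Real.pi) * ε := by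
        rw [hε]; field_simp; norm_num
      rw [h1]
      exact mul_le_mul_of_nonneg_right hc hε0.le
    refine le_csInf ⟨_, 0, 0, by simp, by simp, rfl⟩ ?_
    rintro _ ⟨P, Q, hP, hQ, rfl⟩
    refine hbig.trans ?_
    by_contra hcon
    push Not at hcon
    have hcpt : IsCompact (c • Q90.CC.Km (2 * n + 3)) := (Q90.CC.Km_compact _).smul c
    have hfcpt : IsCompact (frontier (c • Q90.CC.Km (2 * n + 3))) :=
      hcpt.of_isClosed_subset isClosed_frontier hcpt.isClosed.frontier_subset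
    have hpcpt : IsCompact (polyCurve P Q) := by
      refine isCompact_Icc.image ?_
      have h1 : (fun t : ℝ => (⟨P.eval t, Q.eval t⟩ : ℂ)) =
          fun t => ((P.eval t : ℝ) : ℂ) + ((Q.eval t : ℝ) : ℂ) * Complex.I := by
        funext t; apply Complex.ext <;> simp
      rw [h1]
      have := P.continuous
      have := Q.continuous
      fun_prop
    have hcont : Continuous fun z : ℂ => (z.re, z.im) := by fun_prop
    have hfr := Q90.CC.frontier_smul' hc0.ne' (Q90.CC.Km (2 * n + 3))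
    have hnode := Q90.CC.node_frontier (m := 2 * n + 3) (k := 0) (by omega) (by omega)
    have hne : (frontier (c • Q90.CC.Km (2 * n + 3))).Nonempty := by
      rw [hfr]; exact ⟨_, Set.smul_mem_smul_set hnode⟩
    have hpne : (polyCurve P Q).Nonempty := ⟨_, 0, ⟨le_rfl, zero_le_one⟩, rfl⟩
    have hfin := Metric.hausdorffEDist_ne_top_of_nonempty_of_bounded
      (hne.image (fun z : ℂ => (z.re, z.im))) (hpne.image (fun z : ℂ => (z.re, z.im)))
      (hfcpt.image hcont).isBounded (hpcpt.image hcont).isBounded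
    refine Q90.CC.lower n (Polynomial.C (1 / c) * P) (Polynomial.C (1 / c) * Q)
      ((natDegree_C_mul_le _ _).trans hP) ((natDegree_C_mul_le _ _).trans hQ) ε hε0 le_rfl ?_ ?_
    · intro t ht
      have hmem : (P.eval t, Q.eval t) ∈ (fun z : ℂ => (z.re, z.im)) '' polyCurve P Q :=
        ⟨_, ⟨t, ht, rfl⟩, rfl⟩
      obtain ⟨_, ⟨q, hq, rfl⟩, hd⟩ := Metric.exists_dist_lt_of_hausdorffDist_lt' hmem hcon hfin
      rw [hfr] at hq
      obtain ⟨q', hq', rfl⟩ := hq
      rw [Prod.dist_eq, max_lt_iff, Real.dist_eq, Real.dist_eq] at hd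
      simp only [Complex.smul_re, Complex.smul_im, smul_eq_mul] at hd
      refine ⟨q', hq', ?_, ?_⟩
      · rw [eval_mul, eval_C]
        have h1 : 1 / c * P.eval t - q'.re = -(1 / c * (c * q'.re - P.eval t)) := by
          field_simp; ring
        rw [h1, abs_neg, abs_mul, abs_of_pos (by positivity), one_div_mul_eq_div, div_lt_iff₀ hc0]
        linarith [hd.1]
      · rw [eval_mul, eval_C]
        have h1 : 1 / c * Q.eval t - q'.im = -(1 / c * (c * q'.im - Q.eval t)) := by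
          field_simp; ring
        rw [h1, abs_neg, abs_mul, abs_of_pos (by positivity), one_div_mul_eq_div, div_lt_iff₀ hc0]
        linarith [hd.2]
    · intro q' hq'
      have hmem : ((c • q').re, (c • q').im) ∈ (fun z : ℂ => (z.re, z.im)) ''
          frontier (c • Q90.CC.Km (2 * n + 3)) :=
        ⟨c • q', by rw [hfr]; exact Set.smul_mem_smul_set hq', rfl⟩
      obtain ⟨_, ⟨_, ⟨t, ht, rfl⟩, rfl⟩, hd⟩ :=
        Metric.exists_dist_lt_of_hausdorffDist_lt hmem hcon hfin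
      rw [Prod.dist_eq, max_lt_iff, Real.dist_eq, Real.dist_eq] at hd
      simp only [Complex.smul_re, Complex.smul_im, smul_eq_mul] at hd
      refine ⟨t, ht, ?_, ?_⟩
      · rw [eval_mul, eval_C]
        have h1 : 1 / c * P.eval t - q'.re = -(1 / c * (c * q'.re - P.eval t)) := by
          field_simp; ring
        rw [h1, abs_neg, abs_mul, abs_of_pos (by positivity), one_div_mul_eq_div, div_lt_iff₀ hc0]
        linarith [hd.1]
      · rw [eval_mul, eval_C]
        have h1 : 1 / c * Q.eval t - q'.im = -(1 / c * (c * q'.im - Q.eval t)) := by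
          field_simp; ring
        rw [h1, abs_neg, abs_mul, abs_of_pos (by positivity), one_div_mul_eq_div, div_lt_iff₀ hc0]
        linarith [hd.2]

lemma bdd (n : ℕ) : BddAbove (E n '' Gamma10) := by
  refine ⟨12288 * Real.pi ^ 4 / (n + 2) ^ 2, ?_⟩
  rintro _ ⟨F, hF, rfl⟩
  exact E_upper hF n

/-- **The order of magnitude of `e_n` is `n⁻²`**, with explicit absolute constants. -/
theorem result :
    (∀ n : ℕ, BddAbove (E n '' Gamma10) ∧
      1 / (1600 * Real.pi * (2 * n + 3) ^ 2) ≤ e n ∧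
      e n ≤ 12288 * Real.pi ^ 4 / (n + 2) ^ 2) ∧
    (∃ c₁ c₂ : ℝ, 0 < c₁ ∧ 0 < c₂ ∧ ∀ n : ℕ, 1 ≤ n →
      c₁ / (n : ℝ) ^ 2 ≤ e n ∧ e n ≤ c₂ / (n : ℝ) ^ 2) := by
  have hpi := Real.pi_pos
  have hmain : ∀ n : ℕ, BddAbove (E n '' Gamma10) ∧
      1 / (1600 * Real.pi * (2 * n + 3) ^ 2) ≤ e n ∧
      e n ≤ 12288 * Real.pi ^ 4 / (n + 2) ^ 2 := by
    intro n
    obtain ⟨F, hF, hlow⟩ := E_lower n
    refine ⟨bdd n, hlow.trans (le_csSup (bdd n) ⟨F, hF, rfl⟩), ?_⟩
    refine csSup_le ⟨_, F, hF, rfl⟩ ?_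
    rintro _ ⟨G, hG, rfl⟩
    exact E_upper hG n
  refine ⟨hmain, 1 / (40000 * Real.pi), 12288 * Real.pi ^ 4, by positivity, by positivity, ?_⟩
  intro n hn
  obtain ⟨_, h1, h2⟩ := hmain n
  have hn1 : (1 : ℝ) ≤ n := by exact_mod_cast hn
  constructor
  · refine le_trans ?_ h1
    rw [div_div]
    refine one_div_le_one_div_of_le (by positivity) ?_
    have h3 : (2 * (n : ℝ) + 3) ^ 2 ≤ 25 * (n : ℝ) ^ 2 := by nlinarith
    have h4 : 1600 * Real.pi * (2 * (n : ℝ) + 3) ^ 2 ≤ 1600 * Real.pi * (25 * (n : ℝ) ^ 2) :=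
      mul_le_mul_of_nonneg_left h3 (by positivity)
    linarith
  · refine h2.trans ?_
    refine div_le_div_of_nonneg_left (by positivity) (by positivity) ?_
    exact pow_le_pow_left₀ (by positivity) (by linarith) 2

end Pool.Agent.Results.MP_24cacf_an.OrderOfMagnitude
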